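import Pool.Agent.Work.MP_223b32_es.Interface

/-!
# MODF: a relation with few terms
-/

namespace Pool.Agent.Work.ES

open Finset Polynomial Module
open Pool.Agent.Work.TL (Om)

namespace MODF

/-- The coefficients of `f` are periodic. -/
theorem coeff_periodic {R : Type*} [CommRing R] [NoZeroDivisors R] [Nontrivial R]
    {n n' : ℕ} (hn' : 0 < n') {f : R[X]}
    (hf : f.natDegree < n) (h : (X ^ n - 1 : R[X]) ∣ (X ^ n' - 1) * f) (a : ℕ) (ha : n' ≤ a)
    (han : a < n) : f.coeff a = f.coeff (a - n') := by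
  obtain ⟨g, hg⟩ := h
  have hdeg : g = 0 ∨ g.natDegree < n' := by
    by_cases g0 : g = 0
    · exact Or.inl g0
    right
    have hn : 0 < n := by omega
    have f0 : f ≠ 0 := by
      rintro rfl
      rw [mul_zero] at hg
      rcases mul_eq_zero.1 hg.symm with h1 | h1
      · exact (X_pow_sub_C_ne_zero hn (1 : R)) (by simpa using h1)
      · exact g0 h1
    have h1 : ((X ^ n' - 1 : R[X]) * f).natDegree = n' + f.natDegree := by
      rw [natDegree_mul _ f0]
      · rw [← C_1, natDegree_X_pow_sub_C]
      · rw [← C_1]; exact X_pow_sub_C_ne_zero hn' 1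
    have h2 : ((X ^ n - 1 : R[X]) * g).natDegree = n + g.natDegree := by
      rw [natDegree_mul _ g0]
      · rw [← C_1, natDegree_X_pow_sub_C]
      · rw [← C_1]; exact X_pow_sub_C_ne_zero hn 1
    rw [hg, h2] at h1
    omega
  have h3 := congrArg (fun p => coeff p a) hg
  simp only [sub_mul, one_mul, coeff_sub, coeff_X_pow_mul', if_pos ha, if_neg (by omega : ¬ n ≤ a)]
    at h3
  have h4 : g.coeff a = 0 := by
    rcases hdeg with h | h
    · rw [h, coeff_zero]
    · exact coeff_eq_zero_of_natDegree_lt (by omega)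
  rw [h4] at h3
  have h5 : f.coeff (a - n') - f.coeff a = 0 := by rw [h3]; ring
  exact (sub_eq_zero.1 h5).symm

/-- A nonzero periodic polynomial has many terms. -/
theorem card_support_ge {R : Type*} [CommRing R] [NoZeroDivisors R] [Nontrivial R]
    {n' m : ℕ} (hn' : 0 < n') {f : R[X]} (f0 : f ≠ 0)
    (hf : f.natDegree < n' * m) (h : (X ^ (n' * m) - 1 : R[X]) ∣ (X ^ n' - 1) * f) :
    m ≤ f.support.card := by
  have hper : ∀ s r : ℕ, r < n' → n' * s + r < n' * m → f.coeff (n' * s + r) = f.coeff r := by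
    intro s
    induction s with
    | zero => intro r _ _; simp
    | succ s ih =>
      intro r hr hlt
      have e : n' * (s + 1) + r - n' = n' * s + r := by rw [mul_add, mul_one]; omega
      rw [coeff_periodic hn' hf h _ (by rw [mul_add]; omega) hlt, e]
      exact ih r hr (by rw [mul_add, mul_one] at hlt; omega)
  have hdm := Nat.div_add_mod f.natDegree n'
  have hmod := Nat.mod_lt f.natDegree hn'
  have hr : f.coeff (f.natDegree % n') ≠ 0 := by
    rw [← hper (f.natDegree / n') _ hmod (by omega), hdm]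
    exact (leadingCoeff_ne_zero.2 f0)
  have hsub : (range m).image (fun s => n' * s + f.natDegree % n') ⊆ f.support := by
    intro a ha
    obtain ⟨s, hs, rfl⟩ := Finset.mem_image.1 ha
    rw [Polynomial.mem_support_iff, hper s _ hmod]
    · exact hr
    · have hs' : s + 1 ≤ m := Finset.mem_range.1 hs
      calc n' * s + f.natDegree % n' < n' * s + n' := by omega
        _ = n' * (s + 1) := by ring
        _ ≤ n' * m := Nat.mul_le_mul_left _ hs'
  have hinj : Function.Injective (fun s : ℕ => n' * s + f.natDegree % n') := by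
    intro s t hst
    have : n' * s = n' * t := by simpa using hst
    exact Nat.eq_of_mul_eq_mul_left hn' this
  calc m = ((range m).image (fun s => n' * s + f.natDegree % n')).card := by
        rw [Finset.card_image_of_injective _ hinj, Finset.card_range]
    _ ≤ _ := Finset.card_le_card hsub

theorem aeval_mul_apply_zero {g h : (ZMod 2)[X]} {W : Om} (hh : aeval Fr h W = 0) :
    aeval Fr (g * h) W = 0 := by
  rw [map_mul, Module.End.mul_apply, hh, map_zero]

end MODF

open MODF in
theorem stmt_MODF (hC : Stmt_CYC3) : Stmt_MODF := by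
  obtain ⟨hirr, hcop, hprod, -⟩ := hC
  intro k j hj hjk W f f0 hfdeg h1 h2 hcard
  by_contra hcon
  push Not at hcon
  -- Φ_i divides f for j ≤ i ≤ k
  have hdiv : ∀ i, j ≤ i → i ≤ k → cyclotomic (3 ^ i) (ZMod 2) ∣ f := by
    intro i hji hik
    have hcof : cyclotomic (3 ^ i) (ZMod 2) * cof k i = X ^ 3 ^ k - 1 := by
      rw [← hprod k]
      exact Finset.mul_prod_erase (range (k + 1)) (fun l => cyclotomic (3 ^ l) (ZMod 2))
        (Finset.mem_range.2 (by omega))
    have hd : cyclotomic (3 ^ i) (ZMod 2) ∣ (X - 1) * f := by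
      by_contra hnd
      have hc : IsCoprime (cyclotomic (3 ^ i) (ZMod 2)) ((X - 1) * f) :=
        (hirr i).coprime_iff_not_dvd.2 hnd
      obtain ⟨u, v, huv⟩ := hc
      apply hcon i hji hik
      have e : cof k i = u * (X ^ 3 ^ k - 1) + (cof k i * v) * ((X - 1) * f) := by
        rw [← hcof]
        calc cof k i = cof k i * (u * cyclotomic (3 ^ i) (ZMod 2) + v * ((X - 1) * f)) := by
              rw [huv, mul_one]
          _ = _ := by ring
      rw [e, map_add, LinearMap.add_apply, aeval_mul_apply_zero h2, aeval_mul_apply_zero h1,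
        add_zero]
    have h0 : cyclotomic (3 ^ 0) (ZMod 2) = X - 1 := by
      rw [pow_zero, cyclotomic_one]
    have hc0 : IsCoprime (cyclotomic (3 ^ i) (ZMod 2)) (X - 1) := by
      rw [← h0]
      exact hcop i 0 (by omega)
    exact hc0.dvd_of_dvd_mul_left hd
  have hprodDiv : ∏ l ∈ Finset.Ico j (k + 1), cyclotomic (3 ^ l) (ZMod 2) ∣ f := by
    apply Finset.prod_dvd_of_coprime
    · intro a _ b _ hab
      exact hcop a b hab
    · intro i hi
      rw [Finset.mem_Ico] at hi
      exact hdiv i hi.1 (by omega)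
  have hlow : ∏ l ∈ range j, cyclotomic (3 ^ l) (ZMod 2) = X ^ 3 ^ (j - 1) - 1 := by
    have := hprod (j - 1)
    rwa [Nat.sub_add_cancel hj] at this
  have hall : (X ^ 3 ^ k - 1 : (ZMod 2)[X]) ∣ (X ^ 3 ^ (j - 1) - 1) * f := by
    rw [← hprod k, ← hlow, ← Finset.prod_range_mul_prod_Ico _ (by omega : j ≤ k + 1)]
    exact mul_dvd_mul_left _ hprodDiv
  have hexp : 3 ^ (j - 1) * 3 ^ (k + 1 - j) = 3 ^ k := by
    rw [← pow_add]; congr 1; omega
  have := card_support_ge (R := ZMod 2) (n' := 3 ^ (j - 1)) (m := 3 ^ (k + 1 - j)) (by positivity)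
    f0 (by rw [hexp]; exact hfdeg) (by rw [hexp]; exact hall)
  omega

end Pool.Agent.Work.ES
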