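import Pool.Agent.Work.MP_223b32_es.Interface

/-!
# PAR1: the polynomials given by noncubes
-/

namespace Pool.Agent.Work.ES

open Finset Polynomial Module

namespace PAR1

/-- The degree of `x` divides `n` iff `x` is fixed by the `n`-th power of Frobenius. -/
theorem natDegree_minpoly_dvd_iff {F L : Type*} [Field F] [Fintype F] [Field L] [Algebra F L]
    {x : L} (hx : IsIntegral F x) (n : ℕ) :
    (minpoly F x).natDegree ∣ n ↔ x ^ (Fintype.card F) ^ n = x := by
  rw [(minpoly.irreducible hx).natDegree_dvd_iff_dvd_X_pow_card_pow_sub_X, minpoly.dvd_iff,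
    Nat.card_eq_fintype_card]
  simp [sub_eq_zero]

/-- The `n`-th power of Frobenius. -/
theorem exists_frob (F L : Type*) [Field F] [Fintype F] [Field L] [Algebra F L] (n : ℕ) :
    ∃ φ : L →ₐ[F] L, ∀ x, φ x = x ^ (Fintype.card F) ^ n := by
  induction n with
  | zero => exact ⟨AlgHom.id F L, fun x => by simp⟩
  | succ n ih =>
    obtain ⟨φ, hφ⟩ := ih
    refine ⟨(FiniteField.frobeniusAlgHom F L).comp φ, fun x => ?_⟩
    rw [AlgHom.comp_apply, hφ, FiniteField.coe_frobeniusAlgHom]
    show (x ^ Fintype.card F ^ n) ^ Fintype.card F = _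
    rw [← pow_mul, ← pow_succ]

/-- Arithmetic: `(Q ^ 3 - 1) / 3 = (Q - 1) s`. -/
theorem arith (Q : ℕ) (h : Q % 3 = 1) : ∃ s, (Q ^ 3 - 1) / 3 = (Q - 1) * s := by
  obtain ⟨m, hm⟩ : ∃ m, Q = 3 * m + 1 := ⟨Q / 3, by omega⟩
  subst hm
  refine ⟨3 * m ^ 2 + 3 * m + 1, ?_⟩
  have : (3 * m + 1) ^ 3 - 1 = 3 * ((3 * m + 1 - 1) * (3 * m ^ 2 + 3 * m + 1)) := by
    have e : (3 * m + 1) ^ 3 = 3 * ((3 * m) * (3 * m ^ 2 + 3 * m + 1)) + 1 := by ring
    rw [e, Nat.add_sub_cancel, Nat.add_sub_cancel]
  rw [this, Nat.mul_div_cancel_left _ (by norm_num)]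

end PAR1

open PAR1 in
theorem stmt_PAR1 : Stmt_PAR1 := by
  intro F K _ _ _ _ _ hq k hk hfin c w hw
  obtain ⟨hw0, hw1⟩ := hw
  have hcardK : Fintype.card K = Fintype.card F ^ 3 ^ k := by
    rw [Module.card_eq_pow_finrank (K := F) (V := K), hfin]
  have hq1 : ∀ n : ℕ, (Fintype.card F ^ n) % 3 = 1 := by
    intro n
    rw [Nat.pow_mod, show Fintype.card F % 3 = 1 by omega, one_pow]
    rfl
  have : Module.Finite F K := Module.finite_of_finrank_pos (by rw [hfin]; positivity)
  have hint : ∀ x : K, IsIntegral F x := fun x => IsIntegral.of_finite F x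
  -- step 1: the degree of `a = h_c(w)`
  have hfixK : ∀ x : K, x ^ Fintype.card F ^ 3 ^ k = x := by
    intro x; rw [← hcardK]; exact FiniteField.pow_card x
  have hdeg : (minpoly F (hc c w)).natDegree = 3 ^ k := by
    have h1 : (minpoly F (hc c w)).natDegree ∣ 3 ^ k :=
      (natDegree_minpoly_dvd_iff (hint _) _).2 (hfixK _)
    obtain ⟨i, hik, hi⟩ := (Nat.dvd_prime_pow Nat.prime_three).1 h1
    rcases Nat.lt_or_ge i k with hlt | hge
    swap
    · rw [hi, le_antisymm hik hge]
    exfalso
    have h2 : (minpoly F (hc c w)).natDegree ∣ 3 ^ (k - 1) := by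
      rw [hi]; exact pow_dvd_pow 3 (by omega)
    rw [natDegree_minpoly_dvd_iff (hint _)] at h2
    obtain ⟨φ, hφ⟩ := exists_frob F K (3 ^ (k - 1))
    have hφw0 : φ w ≠ 0 := by simpa using hw0
    have h3 : φ (hc c w) = hc c w := by rw [hφ]; exact h2
    have h4 : φ w + algebraMap F K (c ^ 3) / φ w = w + algebraMap F K (c ^ 3) / w := by
      have : φ (hc c w) = φ w + algebraMap F K (c ^ 3) / φ w := by
        rw [hc, map_add, map_div₀, AlgHom.commutes]
      rw [← this, h3, hc]
    have h5 : (φ w - w) * (φ w * w - algebraMap F K (c ^ 3)) = 0 := by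
      field_simp at h4
      linear_combination h4
    have hQ3 : Fintype.card F ^ 3 ^ k = (Fintype.card F ^ 3 ^ (k - 1)) ^ 3 := by
      rw [← pow_mul, ← pow_succ, Nat.sub_add_cancel hk]
    have hφ3 : φ (φ (φ w)) = w := by
      have := hfixK w
      rw [hQ3] at this
      rw [hφ, hφ, hφ, ← pow_mul, ← pow_mul]
      convert this using 2
      ring
    have h6 : φ w = w := by
      rcases mul_eq_zero.1 h5 with h | h
      · exact sub_eq_zero.1 h
      · have h7 : φ w = algebraMap F K (c ^ 3) / w := by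
          rw [eq_div_iff hw0]; exact sub_eq_zero.1 h
        have h8 : φ (φ w) = w := by
          have hc0 : algebraMap F K (c ^ 3) ≠ 0 := by
            intro h0
            rw [h0, zero_div] at h7
            exact hφw0 h7
          rw [h7, map_div₀, AlgHom.commutes, h7]
          field_simp
        rw [h8] at hφ3
        exact hφ3
    apply hw1
    obtain ⟨s, hs⟩ := arith (Fintype.card F ^ 3 ^ (k - 1)) (hq1 _)
    rw [hcardK, hQ3, hs, pow_mul]
    have h9 : w ^ (Fintype.card F ^ 3 ^ (k - 1) - 1) = 1 := by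
      have h10 : w ^ (Fintype.card F ^ 3 ^ (k - 1) - 1) * w = w := by
        rw [← pow_succ, Nat.sub_add_cancel (Nat.one_le_pow _ _ Fintype.card_pos), ← hφ]
        exact h6
      exact mul_right_cancel₀ hw0 (by rw [h10, one_mul])
    rw [h9, one_pow]
  refine ⟨hdeg, ?_⟩
  -- step 2: the root `b = z + c / z`, `z ^ 3 = w`
  let L := AlgebraicClosure K
  have : Algebra.IsAlgebraic F L := Algebra.IsAlgebraic.trans F K L
  obtain ⟨z, hz⟩ := IsAlgClosed.exists_pow_nat_eq (algebraMap K L w) (n := 3) (by norm_num)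
  have hιw0 : algebraMap K L w ≠ 0 := by simpa using hw0
  have hz0 : z ≠ 0 := by
    rintro rfl
    exact hιw0 (by rw [← hz]; simp)
  set c' : L := algebraMap F L c with hc'
  have hcc' : algebraMap K L (algebraMap F K c) = c' := (IsScalarTower.algebraMap_apply F K L c).symm
  set b : L := z + c' / z with hb
  have hbint : IsIntegral F b := Algebra.IsIntegral.isIntegral b
  have hmb : aeval b (mm c) = algebraMap K L (hc c w) := by
    have e1 : aeval b (mm c) = b ^ 3 - 3 * c' * b := by
      simp only [mm, map_sub, map_mul, map_pow, aeval_X, aeval_C, hc']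
      rw [map_ofNat]
    have e2 : c' / z * z = c' := div_mul_cancel₀ _ hz0
    have e3 : c' ^ 3 / z ^ 3 = (c' / z) ^ 3 := (div_pow _ _ _).symm
    rw [e1, hc, map_add, map_div₀, map_pow, map_pow, hcc', ← hz, hb, e3]
    linear_combination (3 * (z + c' / z)) * e2
  have hmin : minpoly F (hc c w) = minpoly F (algebraMap K L (hc c w)) :=
    (minpoly.algebraMap_eq (algebraMap K L).injective _).symm
  have hroot : aeval b ((minpoly F (hc c w)).comp (mm c)) = 0 := by
    rw [aeval_comp, hmb, hmin, minpoly.aeval]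
  have hdvd : minpoly F b ∣ (minpoly F (hc c w)).comp (mm c) := minpoly.dvd F b hroot
  have hmm : (mm c).Monic ∧ (mm c).natDegree = 3 := by
    have hlt : (C (3 * c) * X : F[X]).degree < (X ^ 3 : F[X]).degree := by
      rw [degree_X_pow]
      exact lt_of_le_of_lt (degree_C_mul_X_le _) (by norm_num)
    refine ⟨(monic_X_pow 3).sub_of_left hlt, ?_⟩
    rw [mm, natDegree_sub_eq_left_of_natDegree_lt, natDegree_X_pow]
    rw [natDegree_X_pow]
    exact lt_of_le_of_lt (natDegree_C_mul_le _ _) (by rw [natDegree_X]; norm_num)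
  have hmonic : ((minpoly F (hc c w)).comp (mm c)).Monic :=
    (minpoly.monic (hint _)).comp hmm.1 (by rw [hmm.2]; norm_num)
  have hndeg : ((minpoly F (hc c w)).comp (mm c)).natDegree = 3 ^ (k + 1) := by
    rw [natDegree_comp, hdeg, hmm.2, pow_succ]
  -- the Frobenius of `K` on `L`
  obtain ⟨φ, hφ⟩ := exists_frob F L (3 ^ k)
  set om : L := algebraMap K L (w ^ ((Fintype.card K - 1) / 3)) with hom
  have hom1 : om ≠ 1 := by
    rw [hom]
    intro h
    apply hw1
    apply (algebraMap K L).injective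
    rw [h, map_one]
  have h3dvd : 3 ∣ Fintype.card K - 1 := by
    have := hq1 (3 ^ k)
    rw [← hcardK] at this
    omega
  have hom3 : om ^ 3 = 1 := by
    rw [hom, ← map_pow, ← pow_mul, Nat.div_mul_cancel h3dvd, FiniteField.pow_card_sub_one_eq_one w hw0,
      map_one]
  have hφK : ∀ x : K, φ (algebraMap K L x) = algebraMap K L x := by
    intro x
    rw [hφ, ← hcardK, ← map_pow, FiniteField.pow_card]
  have hφz : φ z = om * z := by
    have hcp : 0 < Fintype.card K := Fintype.card_pos
    have e : Fintype.card K = 3 * ((Fintype.card K - 1) / 3) + 1 := by omega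
    rw [hφ, ← hcardK]
    calc z ^ Fintype.card K = z ^ (3 * ((Fintype.card K - 1) / 3) + 1) := by rw [← e]
      _ = om * z := by rw [pow_succ, pow_mul, hz, hom, map_pow]
  have hφom : φ om = om := hφK _
  have hφφz : φ (φ (φ z)) = z := by
    rw [hφz, map_mul, hφom, hφz, map_mul, map_mul, hφom, hφz]
    linear_combination z * hom3
  have hφb : φ (φ (φ b)) = b := by
    have hcφ : φ c' = c' := φ.commutes c
    rw [hb]
    simp only [map_add, map_div₀, hcφ, hφφz]
  have hd1 : (minpoly F b).natDegree ∣ 3 ^ (k + 1) := by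
    rw [natDegree_minpoly_dvd_iff hbint]
    rw [hφ, hφ, hφ, ← pow_mul, ← pow_mul] at hφb
    convert hφb using 2
    rw [pow_succ 3 k, mul_comm, pow_mul]
    ring
  obtain ⟨i, hik, hi⟩ := (Nat.dvd_prime_pow Nat.prime_three).1 hd1
  rcases Nat.lt_or_ge i (k + 1) with hlt | hge
  swap
  · have hie : i = k + 1 := le_antisymm hik hge
    have heq : minpoly F b = (minpoly F (hc c w)).comp (mm c) := by
      apply (Polynomial.eq_of_monic_of_dvd_of_natDegree_le (minpoly.monic hbint) hmonic hdvd _).symm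
      rw [hndeg, hi, hie]
    rw [← heq]
    exact minpoly.irreducible hbint
  exfalso
  have hd2 : (minpoly F b).natDegree ∣ 3 ^ k := by
    rw [hi]; exact pow_dvd_pow 3 (by omega)
  rw [natDegree_minpoly_dvd_iff hbint, ← hφ, hb, map_add, map_div₀, hφz, φ.commutes c] at hd2
  have hom0 : om ≠ 0 := by
    intro h
    rw [h] at hom3
    norm_num at hom3
  have hd3 : (om - 1) * (om * z ^ 2 - c') = 0 := by
    have e1 : c' / (om * z) * (om * z) = c' := div_mul_cancel₀ _ (mul_ne_zero hom0 hz0)
    have e2 : c' / z * z = c' := div_mul_cancel₀ _ hz0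
    linear_combination (om * z) * hd2 - e1 + om * e2
  have hd4 : om * z ^ 2 = c' := by
    rcases mul_eq_zero.1 hd3 with h | h
    · exact absurd (sub_eq_zero.1 h) hom1
    · exact sub_eq_zero.1 h
  have hd5 : algebraMap K L (w ^ 2) = algebraMap K L ((algebraMap F K c) ^ 3) := by
    rw [map_pow, map_pow, hcc', ← hz, ← hd4]
    linear_combination (-z ^ 6) * hom3
  have hd6 : w ^ 2 = (algebraMap F K c) ^ 3 := (algebraMap K L).injective hd5
  have hc0 : algebraMap F K c ≠ 0 := by
    intro h
    rw [h] at hd6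
    simp at hd6
    exact hw0 hd6
  have hom2 : om ^ 2 = 1 := by
    rw [hom, ← map_pow, ← pow_mul, mul_comm, pow_mul, hd6, ← pow_mul, Nat.mul_div_cancel' h3dvd,
      FiniteField.pow_card_sub_one_eq_one _ hc0, map_one]
  apply hom1
  have : om ^ 3 = om ^ 2 * om := by ring
  rw [hom3, hom2, one_mul] at this
  exact this.symm

end Pool.Agent.Work.ES
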